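import Pool.Agent.W886.Prim.Final

/-!
# Primitivity of the quasivariety generated by a finite Heyting algebra is decidable

There is an algorithm (a computable function on lists of natural numbers) which, given the
operation tables of a finite Heyting algebra `A`, decides whether the quasivariety `Q(A)` is
primitive; equivalently, whether the deductive system `⊢_A` is hereditarily structurally complete.
-/

namespace Pool.Agent.Results.MP_51e3d2_lc.PrimitiveDecidable

open Pool.Agent.W886.Prim

theorem result :
    ∃ f : List ℕ → Bool, Computable f ∧
      ∀ (A : Type) [HeytingAlgebra A] [Finite A] (n : ℕ) (e : A ≃ Fin n),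
        (f (tables e) = true ↔ Primitive (quasivarietyOf (ofHeyting A))) ∧
        (f (tables e) = true ↔ (matrixSystem A).HereditarilyStructurallyComplete) := by
  obtain ⟨f, hf, h⟩ := Pool.Agent.W886.PrimN.critP_computable
  refine ⟨f, hf, fun A _ _ n e => ?_⟩
  rw [hsc_iff_primitive, h, ← primitive_iff e]
  exact ⟨Iff.rfl, Iff.rfl⟩

end Pool.Agent.Results.MP_51e3d2_lc.PrimitiveDecidable
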